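import Pool.Agent.U935.AN.Main

/-!
# The numerical Hodge standard conjecture for abelian varieties and anisotropy

`𝒱` is a class of smooth projective varieties over the field `k` which is closed under products, for
the problem the abelian varieties over `k`, and `T` the rings `N(X)` of algebraic cycles with rational
coefficients modulo numerical equivalence (in the form of their formal properties, `IsNum`:
graded rings, degree maps, nondegeneracy, pull-backs from the factors of products). `Pol X L` means
that `L` is one of the polarisations of `X` under consideration, for the problem all ample classes.
The family of the pairs `(X, L)` is closed under `(X, L) ↦ (X × E, L ⊠ e)` and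
`(X, L) ↦ (X × S, L ⊠ f)` (`IsFamily`), where `E` is an elliptic curve over `k`, `e` the class of a
point (`IsCurve`), `S = E × E` (`IsSurface`), and `f = e₁ + e₂`, `g = e₁ - e₂`, `g' = Δ - e₁ - e₂` (so `f g = f g' = g g' = 0`,
`f² = 2`, `g² = g'² = -2`).

`Hodge T X L` (`AllHodge`): the form `(-1)^n α β L^(d-2n)` is positive definite on the primitive part of `N^n(X)`,
`d = dim X`, for all `2 n ≤ d`. `Anisotropic T X L n` (`AllAnisotropic`, `d = 2 n`): no nonzero `z ∈ N^n(X)` with
`L z = 0` has self-intersection number zero. `HasIsotropic T X L n r` (`BoundedWitt`): the primitive part of the
middle group `N^n(X)` contains a totally isotropic subspace of dimension `r` (its Witt index is at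
least `r`).

Theorem. Let `A` be an unbounded set of natural numbers. The following are equivalent.
(1) The numerical standard conjecture of Hodge type holds for all `(X, L)` in the family.
(2) For all `(X, L)` in the family with `dim X = 2 n`, `n ∈ A`: no nonzero `z ∈ N^n(X)` with `L z = 0`
has self-intersection number zero.
(3) The Witt indices of the forms `z ↦ deg z²` on the primitive middle classes are bounded for the
`(X, L)` in the family with `dim X = 2 n`, `n ∈ A`.

So the positivity in the conjecture is equivalent to a statement without signs: a primitive middle
class with self-intersection zero is numerically trivial. If the conjecture is wrong, even for one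
class on one abelian variety `A`, then there are totally isotropic subspaces of any dimension, on the
products `A × E^m` (apply the theorem to the family generated by `A`).

Proof. Products with `E` move a primitive class to the middle dimension. If there `(-1)^n z² < 0`
then `z ⊗ g ⊗ ⋯ ⊗ g` on `X × S^(n+2)` is orthogonal to the four orthogonal primitive classes of equal
positive norm `(∑ (-L)^a f^(2n-a)) ⊗ α ⊗ β`, `α, β ∈ {g, g'}`, where `∑ (-L)^a f^(2n-a)` lives on
`X × S^n`, and so by the theorem of Lagrange on four squares a combination of the five classes is
isotropic. Products with `S` double the dimension of an isotropic subspace.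
-/

set_option autoImplicit false

open CategoryTheory AlgebraicGeometry

universe u v

namespace Pool.Agent.Results.MP_c0b458_ag.Anisotropy

open Pool.Agent.H914 Pool.Agent.H914.VarClass.Obj Pool.Agent.U935.AN

/-- **The numerical standard conjecture of Hodge type is equivalent to the anisotropy of the
intersection forms on the primitive middle classes, and to the boundedness of their Witt
indices.** -/
theorem result {k : Type u} [Field k] {𝒱 : VarClass k} (T : NumData.{u, v} 𝒱) (hT : IsNum T)
    {Pol : ∀ X : 𝒱.Obj, T.N X → Prop} {E S : 𝒱.Obj} {e : T.N E} {f g g' : T.N S}
    (hE : IsCurve T E e) (hS : IsSurface T S f g g') (hF : IsFamily T Pol E e S f) (A : Set ℕ)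
    (hA : ∀ n, ∃ m ∈ A, n ≤ m) :
    List.TFAE [AllHodge T Pol, AllAnisotropic T Pol A, BoundedWitt T Pol A] :=
  main hT hE hS hF A hA

end Pool.Agent.Results.MP_c0b458_ag.Anisotropy
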