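import Pool.Agent.U124.HQ.Stm
import Pool.Agent.U124.HQ.Main

/-!
# The numerical Hodge standard conjecture for products of abelian varieties with Weil classes

We prove the positivity of the primitive algebraic classes, in all codimensions, for all abelian
varieties over finite fields that are isogenous to `A_1 ^ n_1 × ... × A_m ^ n_m × S`, where `S` is
supersingular, the `n_i` and the dimensions of the `A_i` are arbitrary, and the `A_i` are simple
abelian varieties of the two kinds described below. On these varieties there are in general exotic
classes in many codimensions, also classes which mix several of the factors `A_i`.

**The model** is the one of the starting files (`Pool.Agent.W495.TA`, `Pool.Agent.TH117`,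
`Pool.Agent.N202.QR`). By Honda and Tate an abelian variety over an algebraic closure of the field
with `p` elements is, up to isogeny, a reduction of an abelian variety of CM type: `RedAV p ν`. It
has finitely many factors, indexed by `Z.X.I`; the factor `i` has a CM field
`E i = (Z.X.factor i).E` and a Weil number `Z.π i` in `E i` (the Frobenius endomorphism over the
field with `q = p ^ a` elements, `a = Z.a`). The eigenvalues of Frobenius on the first cohomology
are the numbers `φ (Z.π i)`, for the pairs `(i, φ)` of a factor and a complex embedding of its field
(`Emb Z`). `IsCompatible Ω C`: the set `C` of families of cohomology classes (for all prime numbers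
`l`) has the known properties of the set of the classes of the algebraic cycles: sums, products,
pull-backs, push-forwards, rational degrees, the theorem of Lefschetz for the liftings, the theorem
of Tate for divisors, the algebraicity of split Weil classes in the dimensions four and six
(Markman), and the rationality over the field of `l`-adic numbers of the intersection numbers with
the Hodge classes of liftings (trivial for `l ≠ p`, Blasius, Ogus, Wintenberger for `l = p`).
`IsRosatiPositive` is the positivity of the Rosati involution (Weil), `AreTate` says that the
classes of cycles are Tate classes. `HodgeType Y`: the form `(-1) ^ r z ∪ z ∪ L ^ (dim Y - 2 r)` is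
positive for all primitive classes `z` of cycles of codimension `r` which are not numerically
trivial, for all `r` and for all polarizations `L` of `Y` that are compatible with the complex
multiplications of the lifting (up to isogeny these are all polarized abelian varieties over an
algebraic closure of a finite field). `IsPowersTimesSupersingular Z Y`: `Y` is isogenous, over an
algebraic closure, to a product of powers of the factors of `Z` and of a supersingular variety.

**The theorem.** Let `K` be an imaginary quadratic field and `κ` a complex embedding of `K`. Suppose
that each factor `i` of `Z` satisfies (1) or (2).

(1) `E i` contains `K` (by an embedding `ι`), the automorphisms of `ℂ` which fix the complex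
embeddings of all the other fields `E k` are transitive on the embeddings of `E i` over `κ`
(`IndepOver`; no condition if there is only one factor), and (`KindOver`)

* `E i = K` (elliptic curves with complex multiplication by `K`), or
* the automorphisms of `ℂ` are doubly transitive on the embeddings of `E i` over `κ`, for instance
  `E i = K F i` for a totally real field `F i` of any degree `g` for which the Galois group of the
  normal closure is doubly transitive (the symmetric or alternating group of degree `g`, ...), and
  no power of `Z.π i` belongs to `K`, or
* the degree of `E i` over `K` is a prime number and no power of `Z.π i` belongs to `K`, or
* the degree of `E i` over `K` is a power `r ^ n` of an odd prime number `r`, and the slopes at the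
  embeddings `φ` are `(a + c d φ) / 2` with `c ≠ 0` and integers `d φ` whose sum over the embeddings
  over `κ` is not divisible by `r`, or
* in general, all relations between the eigenvalues `φ (Z.π i)` of the factor `i` alone are, up to
  pairs of complex conjugate eigenvalues, defined over `K` (`RelationsOver`).

(2) Any complex embedding of `E i` is exchanged with its complex conjugate by an automorphism of `ℂ`
which fixes the complex embeddings of all the other fields `E k` (`IndepConj`), and (`KindFree`)

* for any embeddings `φ`, `ψ` of `E i` with `ψ` different from `φ` and its conjugate some
  automorphism of `ℂ` fixes `φ` and maps `ψ` to its conjugate (`HasSignChanges`; for instance, the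
  Galois group contains all sign changes, as for a random Weil polynomial), and the factor is not
  supersingular, or
* in general, there are no relations between the eigenvalues of the factor `i` alone except those
  of the complex conjugate pairs (`IsNeat`).

Then `HodgeType Y` holds for all `Y` with `IsPowersTimesSupersingular Z Y`.

**Relation to what was known.** Milne and Ancona: classes generated by divisors. Ancona: all abelian
fourfolds. Koshikawa: squares of simple abelian varieties of prime dimension. The starting
hand-in MP_ffcd14_ag QuadraticRelations proves the positivity under the hypothesis that all
relations between the Frobenius eigenvalues are products of relations between two of them and of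
relations defined over one imaginary quadratic field, and for the powers of one simple abelian
variety of prime dimension; its theorem `hodge_quadE` is used here. New is the proof of this
hypothesis, for a large class of varieties of all dimensions and for products of several such
varieties: the lattice of the multiplicative relations, which is saturated and stable under the
automorphisms of `ℂ` (`Pool.Agent.U124.HQ.Rel`), is determined by means of the permutation
representations on the embeddings (`Irr`), independence (`Fact`) and sign changes (`Neat`). The
definitions are in `Pool.Agent.U124.HQ.Stm`.
-/

set_option autoImplicit false

namespace Pool.Agent.Results.MP_c0b458_ag.ExoticProducts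

open NumberField Module
open Pool.Agent.W495.TA Pool.Agent.TH117.PO Pool.Agent.TH117.BL Pool.Agent.N202.QR
  Pool.Agent.U124.HQ.Stm

/-- **The numerical Hodge standard conjecture for products of powers of abelian varieties with
independent fields whose relations are defined over one imaginary quadratic field.** -/
theorem result {p : ℕ} [Fact p.Prime] {ν : PadicAlgCl p ≃+* ℂ} {K : Type} [Field K] [NumberField K]
    [IsCMField K] (hK : finrank ℚ K = 2) (κ : K →+* ℂ) (Z : RedAV p ν)
    (hZ : ∀ i : Z.X.I,
      (∃ ι : K →+* (Z.X.factor i).E, IndepOver (F := fun i => (Z.X.factor i).E) κ i ι ∧
        KindOver ν κ ι Z.a (Z.π i)) ∨
      (IndepConj (fun i => (Z.X.factor i).E) i ∧ KindFree (p ^ Z.a) (Z.π i)))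
    {Ω : Nat.Primes → Type} [∀ l, Field (Ω l)] [∀ l, CharZero (Ω l)]
    [∀ l : Nat.Primes, Algebra ℚ_[(l : ℕ)] (Ω l)] [∀ l, IsAlgClosed (Ω l)]
    {C : (Y : RedAV p ν) → (κ : Type) → FCl Ω Y κ → Prop}
    (hC : IsCompatible Ω C) (l : Nat.Primes) (hR : IsRosatiPositive (Ω l) (atPrime C l))
    (hT : AreTate (Ω l) (atPrime C l)) (Y : RedAV p ν) (hYZ : IsPowersTimesSupersingular Z Y) :
    HodgeType (Ω l) (atPrime C l) Y :=
  Pool.Agent.U124.HQ.hodge_products hK κ Z hZ hC l hR hT Y hYZ

end Pool.Agent.Results.MP_c0b458_ag.ExoticProducts
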