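import Pool.Agent.U173.HS.Main

/-!
# The numerical Hodge standard conjecture for products with all small abelian varieties

Let `k` be an algebraic closure of a finite field `F_q`, `Γ` the Galois group of `F_q` (or, for a
finitely generated base field, its Galois group), `W` the `ℓ`-adic cohomology with coefficients in an
algebraic closure of `ℚ_ℓ`, and `χ` the inverse of the cyclotomic character. A *place* `v` is given by
a Frobenius element `σ_v`, the number `q = p ^ m` and an embedding of `ℚ̄` in an algebraic closure of
`ℚ_p`; the slopes of an eigenvalue of `σ_v` are the `q`-adic valuations of its conjugates.

For a variety `X` of dimension `g` and an ample divisor `L` the numerical Hodge standard conjecture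
(`NumericalHodge`) says that `(-1) ^ n z · z · L ^ (g - 2 n) > 0` for all cycles `z` of codimension
`n ≤ g / 2` which are not numerically equivalent to zero and for which `z · L ^ (g - 2 n + 1)` is;
`HodgeConjecture` is this statement for all ample `L` on `X`.

Let `X_i` be varieties for which the Tate conjecture is known, and let `P_i` be a set of places and
`R_i(v)`, `v ∈ P_i`, a power of a prime number, such that `H(X_i)` is the direct sum of the span of the
Tate classes and a stable subspace `T_i` with
* each eigenvalue of `σ_v` on `T_i`, `v ∈ P_i`, is supersingular or has a slope whose denominator is
  divisible by `R_i(v)`, and no nonzero subspace of `T_i` which is stable under an open subgroup is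
  supersingular at all `v ∈ P_i`.

**Theorem.** Let `B = ∏ Y_j × Z` and `V = ∏ X_i × B`, where for `v ∈ P_i`, `R = R_i(v)`, each of the
varieties `X_j`, `j` behind `i`, `Y_j` and `Z` has no slope with a denominator divisible by `R`, or
`R > 2` and it is a variety with good reduction at `v` and Betti numbers less than `2 R`, or an
abelian variety of dimension less than `R` (`Avoids`). Then
1. the numerical Hodge standard conjecture for all polarizations holds for `V` if and only if it holds
   for all `X_i` and for `B`;
2. numerical and homological equivalence coincide on `V`;
3. let `X_i` be the first factor and `V'` the product of the others. The cycles on `X_i × V'` are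
   numerically equivalent to sums of cycles `x × y`; for each ample divisor `C` on `X_i × V'` there are
   ample divisors `L` on `X_i` and `M` on `V'` such that `C` is numerically equivalent to
   `L × V' + X_i × M`, and the numerical Hodge standard conjecture for `C` holds if and only if it
   holds for `L` and for `M`.

The varieties `B` may have arbitrary exotic classes. It is assumed that numerical and homological
equivalence coincide on the `X_i` and on `B`; for abelian varieties over `k` there is an `ℓ` with this
property by the theorem of Clozel, so that the statement 1, which does not involve `ℓ`, holds for
abelian varieties over `k` without this assumption.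

Example. Let `A_i` be abelian varieties of pairwise different odd prime dimensions `r_i` with slopes
`a / r_i` and `(r_i - a) / r_i`, `0 < a < r_i`, such that the field generated by a Frobenius
eigenvalue in `H^1` contains no imaginary quadratic field. Then all Tate classes on `A_i` are
combinations of intersections of divisors, the Hodge standard conjecture is known for `A_i`, and
`X_i = A_i`, `R_i = r_i`, satisfy the hypotheses (see `MP_938ce2_ag.SlopeDenominators` for the
slopes); if the Galois group of this field is the full Weyl group of the symplectic group then one may
take `X_i = A_i ^ n`, `n < r_i`.
So **for every abelian variety `B` over `k` whose simple factors have dimensions less than all `r_i`,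
the problem Q1 for `∏ A_i × B`, a variety whose dimension is not bounded, is equivalent to Q1 for `B`**;
it has a positive answer for `∏ A_i × B` for all abelian varieties `B` of dimension at most `4` (by
Ancona's theorem on abelian fourfolds), for example if `B` is a fourfold with exotic classes and all
`r_i > 4`.

Proof. An algebraic class on `X_i × V'` is a Tate class; by the separation of the slopes and the Tate
conjecture for `X_i` it is a combination of products `x ⊗ y` with `x` algebraic, and because numerical
and homological equivalence coincide on `X_i` also the classes `y` may be taken algebraic. In
particular an ample divisor is the sum of its restrictions. The form `⟨-, -⟩` on the algebraic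
classes of the product is the tensor product of the forms of the factors up to the change between the
Lefschetz operators and the operators `*`; the primitive parts are not products, and the positivity
is shown on all algebraic classes with the operator `*` (files `TH132/A`). Conversely the classes
`x × V'` and `X_i × y` are primitive if `x` and `y` are, and the form has on them the value of the
form of the factor times a positive number (the degree of the other factor).
-/

set_option autoImplicit false

open CategoryTheory AlgebraicGeometry

universe u

namespace Pool.Agent.Results.MP_c0b458_ag.SeparatedDenominators

open Pool.Agent.H914 Pool.Agent.H914.VarClass Pool.Agent.H914.VarClass.Obj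
  Pool.Agent.H914.WeilCohomology Pool.Agent.TH125.Gal Pool.Agent.U173.PT Pool.Agent.U173.HS

/-- **The numerical Hodge standard conjecture for products of varieties whose slopes have large
denominators with all small varieties.** -/
theorem result {k : Type u} [Field k] {𝒱 : VarClass k} {ops : CycleOps 𝒱}
    (W : WeilCohomology.{u, 0} ops) [IsAlgClosed W.K] {Γ : Type} [Group Γ] (χ : Γ →* W.Kˣ)
    (G : Set (GVar W Γ)) {I I' : Type} (P : I → Set (Place Γ)) (R : I → Place Γ → ℕ)
    (X : I → GVar W Γ) (Y : I' → GVar W Γ) (Z : GVar W Γ) (l : List I) (l' : List I')
    (B : GVar W Γ) (h : IsHodgeSystem χ G P R X Y Z l l' B)
    (ample : ∀ X : 𝒱.Obj, Set X.Cycles) (hA : IsAmple W ample)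
    (V : GVar W Γ) (hV : IsProductOf X B l V) :
    (HodgeConjecture ops ample V.X ↔
      (∀ i ∈ l, HodgeConjecture ops ample (X i).X) ∧ HodgeConjecture ops ample B.X) ∧
    NumEqHom W V.X ∧
    ∀ (i : I) (l₁ : List I) (V' : GVar W Γ), l = i :: l₁ → IsProductOf X B l₁ V' →
      CyclesAreProducts ops (X i).X V'.X ∧ ∀ C ∈ ample ((X i).X.prod V'.X), ∃ L ∈ ample (X i).X,
        ∃ M ∈ ample V'.X, IsSum ops C L M ∧
          (NumericalHodge ops ((X i).X.prod V'.X) C ↔
            NumericalHodge ops (X i).X L ∧ NumericalHodge ops V'.X M) := by
  refine ⟨h.conjecture hA hV, h.numEqHom hA hV, fun i l₁ V' hl hV' => ?_⟩
  subst hl
  exact h.first hA hV'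

end Pool.Agent.Results.MP_c0b458_ag.SeparatedDenominators
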