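import Pool.Agent.U436.AS.Split

/-!
# Positivity for the Weil classes of the `ℤ/p`-coverings of the line in characteristic `p`

Let `k` be an algebraically closed field, `A ≠ 0` an additive polynomial over `k` (for example `y ^ q - y`, `q` a power
of the characteristic `p`), and `F (x) = f0 (x) + ∑ f i (1 / (x - P i))` ANY rational function with a pole of order
`m 0 = 2 r0 + ε0 + 1` at infinity and poles of orders `m i = 2 r i + ε i + 1` at `N` different points `P i`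
(`ε ∈ {0, 1}`), all these orders being different from zero in `k`. `C` is the curve `A (y) = F (x)`, `x ≠ P i` (for
`A = y ^ p - y` this is, after a change of `x`, every ramified `ℤ/p`-covering of the line), and
`d = m 0 - 1 + ∑ (m i + 1)`, the dimension of the `ψ`-part of `H¹`. Let `d = 2 r` be even. We show:

(1) Let `V` be the variety `A (z) = ∑ a j * b j` (`r` summands), with `b j ≠ 1` for `N` of the `j`. There is an
isomorphism `Φ` by regular functions of the space of monic polynomials of degree `d` which do not vanish at the `P i`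
with the space of the `(a, b)`, `b j ≠ 1` for these `j`, such that `(x l, y l) ↦ (Φ (∏ (X - x l)), ∑ y l - c)` maps
`C ^ d` onto `V`, and its fibres are the orbits of the finite group `G` of the permutations and of the zeros of `A`
with sum zero.

(2) `V` is an open part of the family of quadrics `Y : ∑ a j * b j = A (z) c ^ 2` over the line of the `z` (homogeneous
in `a`, `b`, `c`). For a zero `ζ` of `A` and a subset `S` of the set `J` of the indices `j` let `L S ζ` be the linear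
subspace `a j = 0` (`j ∈ S`), `b j = 0` (`j ∉ S`), `z = ζ`. It lies in `Y`. For `j ∉ S` let `B` be the part `a i = 0`
(`i ∈ S`), `b i = 0` (`i ∉ S`, `i ≠ j`) of `Y`. On `B` one has `A (z) c ^ 2 = a j * b j`, and `z = ζ` exactly on the
union of `L S ζ` and `L (S ∪ j) ζ`: this is the divisor of the function `z - ζ` on `B`, if the zeros of `A` are simple.
The spaces `L J ζ` and `L ∅ ξ` are disjoint for `ζ ≠ ξ`, and meet in the point `a = b = 0` (transversally) for
`ζ = ξ`.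

(3) Hence for every pairing of these spaces which vanishes on `L S ζ + L (S ∪ j) ζ` and has the values `1`, `0` for
`L J ζ`, `L ∅ ξ`, `ζ = ξ`, `ζ ≠ ξ`, as the intersection numbers in `Y` do,
`(-1) ^ r ∑ t ζ t ξ (L J ζ · L J ξ) = ∑ (t ζ) ^ 2`.

Relation to the Hodge standard conjecture (not formalised): let `A = y ^ q - y`. For `t` with sum zero the pullback
of `∑ t ζ (L J ζ)` to `C ^ d` is an algebraic cycle whose class lies in the tensor powers of the `ψ`-parts of `H¹`,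
`ψ ≠ 1`, and these cycles span the Weil classes (the top exterior powers of the `ψ`-parts of `H¹`). By (3) the form
`(-1) ^ r D ^ 2` is positive definite on them, so the form of the numerical Hodge standard conjecture is positive
definite on the space of all Weil classes on the Jacobian of `C`.
-/

set_option autoImplicit false

namespace Pool.Agent.Results.MP_c0b458_ag.WeilClassesOfCovers

open Pool.Agent.U436.AS

theorem result (k : Type) [Field k] [IsAlgClosed k] [DecidableEq k] (A : Polynomial k) (hA : IsAdditive A)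
    (hA0 : A ≠ 0) (N r0 ε0 s : ℕ) (hε0 : ε0 ≤ 1) (r ε : Fin N → ℕ) (hε : ∀ i, ε i ≤ 1)
    (hs : ε0 + ∑ i, ε i = 2 * s)
    (f0 : Polynomial k) (hf0 : f0.natDegree = r0 + ε0 + r0 + 1) (hm0 : ((r0 + ε0 + r0 + 1 : ℕ) : k) ≠ 0)
    (f : Fin N → Polynomial k) (hf : ∀ i, (f i).natDegree = r i + ε i + r i + 1)
    (hm : ∀ i, ((r i + ε i + r i + 1 : ℕ) : k) ≠ 0) (P : Fin N → k) (hP : Function.Injective P)
    (hd : 1 ≤ d2 r0 ε0 r ε) :
    d2 r0 ε0 r ε = 2 * Fintype.card (JJ r0 r s) ∧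
    (∃ (c : k) (Φ : (Fin (d2 r0 ε0 r ε) → k) → JJ r0 r s ⊕ JJ r0 r s → k), IsRegEquiv (dpt P) dAB Φ ∧
      (∀ u : Fin (d2 r0 ε0 r ε) → k × k, (∀ l, u l ∈ rcurve A f0 f P) → rmap Φ c u ∈ rtarget A r0 r s) ∧
      (∀ w ∈ rtarget A r0 r s, ∃ u : Fin (d2 r0 ε0 r ε) → k × k, (∀ l, u l ∈ rcurve A f0 f P) ∧ rmap Φ c u = w) ∧
      (∀ u u' : Fin (d2 r0 ε0 r ε) → k × k, (∀ l, u l ∈ rcurve A f0 f P) → (∀ l, u' l ∈ rcurve A f0 f P) →
        (rmap Φ c u = rmap Φ c u' ↔
          ∃ (σ : Equiv.Perm (Fin (d2 r0 ε0 r ε))) (α : Fin (d2 r0 ε0 r ε) → k),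
            (∀ l, A.eval (α l) = 0) ∧ ∑ l, α l = 0 ∧ ∀ l, u' l = ((u (σ l)).1, (u (σ l)).2 + α l)))) ∧
    (∀ (S : Finset (JJ r0 r s)) (ζ : k), A.eval ζ = 0 → lin S ζ ⊆ bundle A r0 r s ∧
      ∀ j, j ∉ S → bridge A S j ∩ {w | w.2.2 = ζ} = lin S ζ ∪ lin (insert j S) ζ ∧
        ∀ w ∈ bridge A S j, A.eval w.2.2 * w.2.1 ^ 2 = w.1 (Sum.inl j) * w.1 (Sum.inr j)) ∧
    (∀ (ζ ξ : k) (w : (JJ r0 r s ⊕ JJ r0 r s → k) × k × k),
      (w ∈ lin Finset.univ ζ ∧ w ∈ lin ∅ ξ) ↔ ζ = ξ ∧ w.1 = (fun _ => 0) ∧ w.2.2 = ζ) ∧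
    (∀ I : Finset (JJ r0 r s) → k → Finset (JJ r0 r s) → k → ℚ,
      (∀ ζ ∈ A.roots.toFinset, ∀ ξ ∈ A.roots.toFinset, ∀ S T j, j ∉ T → I S ζ T ξ + I S ζ (insert j T) ξ = 0) →
      (∀ ζ ∈ A.roots.toFinset, ∀ ξ ∈ A.roots.toFinset, I Finset.univ ζ ∅ ξ = if ζ = ξ then 1 else 0) →
      ∀ t : k → ℚ, (-1) ^ Fintype.card (JJ r0 r s) *
        ∑ ζ ∈ A.roots.toFinset, ∑ ξ ∈ A.roots.toFinset, t ζ * t ξ * I Finset.univ ζ Finset.univ ξ =
          ∑ ζ ∈ A.roots.toFinset, t ζ ^ 2) := by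
  refine ⟨d2_eq hs, ?_, fun S ζ hζ => ⟨lin_subset S hζ, fun j hj => ⟨bridge_zero hj hζ, fun w hw => bridge_eq hw⟩⟩,
    fun ζ ξ w => lin_inter w, fun I h1 h2 t => pairing h1 h2 t⟩
  obtain ⟨κ, Φ, hΦ, hform⟩ := exists_split hε0 hε hs hf0 hm0 hf hm hP
  obtain ⟨c, hc⟩ := hA.surj hA0 κ
  exact ⟨c, Φ, hΦ, fun u hu => rmap_mem hA hc hΦ hform hu, fun w hw => rmap_surj hA hA0 hd hc hΦ hform hw,
    fun u u' hu hu' => rmap_eq_iff hA hΦ hu hu'⟩

end Pool.Agent.Results.MP_c0b458_ag.WeilClassesOfCovers
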